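import Mathlib

/-!
# The lion number is not monotone under taking connected subgraphs

`k` lions move on a finite graph (any number of them may move in a step); we follow the
clearing / contamination rules literally.  We exhibit a connected graph `G` on 8 vertices and a
connected spanning subgraph `H` of `G` (one edge removed) such that two lions can clear `G`, but
two lions cannot clear `H`.
-/

namespace Pool.Agent.Results.MP_fb7c1b_co.SpanningCounterexample

/-- One step of the `k` lions from the positions `p` to the positions `q`: every lion
independently stays put or moves across one edge. -/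
def IsMove {V : Type*} (G : SimpleGraph V) {k : ℕ} (p q : Fin k → V) : Prop :=
  ∀ i, q i = p i ∨ G.Adj (p i) (q i)

/-- The set of cleared vertices after the lions have moved from `p` to `q`, if `C` was the set of
cleared vertices before: a vertex is cleared iff it is now occupied by a lion, or it was cleared
and every neighbour `u` of it that was contaminated has a lion crossing the edge from `v` to
`u` in this step. -/
def nextCleared {V : Type*} (G : SimpleGraph V) {k : ℕ} (p q : Fin k → V) (C : Set V) : Set V :=
  {v | (∃ i, q i = v) ∨ (v ∈ C ∧ ∀ u, G.Adj v u → u ∉ C → ∃ i, p i = v ∧ q i = u)}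

/-- `Reach G k p C`: `k` lions can reach the state in which they stand at `p` and `C` is the set
of cleared vertices, from some initial placement (at time `0` exactly the occupied vertices are
cleared). -/
inductive Reach {V : Type*} (G : SimpleGraph V) (k : ℕ) : (Fin k → V) → Set V → Prop
  | start (p : Fin k → V) : Reach G k p (Set.range p)
  | step {p : Fin k → V} {C : Set V} (q : Fin k → V) :
      Reach G k p C → IsMove G p q → Reach G k q (nextCleared G p q C)

/-- `k` lions can clear `G`. -/
def CanClear {V : Type*} (G : SimpleGraph V) (k : ℕ) : Prop :=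
  ∃ p : Fin k → V, Reach G k p Set.univ

/-- adjacency test from an 8×8 bit matrix -/
def tb (x : ℕ) (a b : Fin 8) : Bool := Nat.testBit x (8 * a.val + b.val)

/-- The graph `G`: edges 07, 16, 26, 27, 34, 35, 45, 47, 56, 57, 67. -/
def G : SimpleGraph (Fin 8) where
  Adj a b := tb 8477701565455548544 a b = true
  symm := ⟨by decide +kernel⟩
  loopless := ⟨by decide +kernel⟩

/-- The graph `H`: `G` without the edge 67. -/
def H : SimpleGraph (Fin 8) where
  Adj a b := tb 3829986750009196672 a b = true
  symm := ⟨by decide +kernel⟩
  loopless := ⟨by decide +kernel⟩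

instance : DecidableRel G.Adj := fun a b => inferInstanceAs (Decidable (tb _ a b = true))
instance : DecidableRel H.Adj := fun a b => inferInstanceAs (Decidable (tb _ a b = true))

/-- Table of the inclusion-maximal reachable cleared sets of `H` (as bit masks), indexed by
`8 * a + b` for the lions' positions `a`, `b`. -/
def tab : List (List ℕ) :=
  [[7,25],
 [7,59],
 [61,157,71],
 [25,79],
 [25,87],
 [57,103,51],
 [121,71,91,221],
 [153,199],
 [7,59],
 [2],
 [7,62,78],
 [74,11],
 [23,58,90],
 [39,58,106],
 [74,71],
 [135,186,139,206,234],
 [61,157,71],
 [7,62,78],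
 [7,60,70],
 [78,28,15,141],
 [23,60,149,94],
 [39,60,53,54,165,110,45],
 [71,124,94,197],
 [135,188,141,238],
 [25,79],
 [74,11],
 [78,28,15,141],
 [74,25],
 [94,27,153],
 [110,57,43,169],
 [74,89,77],
 [206,203,153,154,170],
 [25,87],
 [23,58,90],
 [23,60,94,149],
 [94,153,27],
 [86,145,90,19,25],
 [51,53,118,177,122,57],
 [83,85,120,86,209,90,92,89],
 [214,153,211,218,151,186],
 [57,103,51],
 [39,58,106],
 [39,60,53,54,110,165,45],
 [110,57,43,169],
 [51,118,53,122,177,57],
 [35,37,102,42,57,161,50],
 [99,101,102,122,124],
 [230,169,172,227,167,177,186],
 [121,71,91,221],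
 [74,71],
 [71,124,94,197],
 [74,89,77],
 [83,85,120,86,90,92,209,89],
 [99,101,102,122,124],
 [74,69],
 [198,197,248,218,203,220,234],
 [153,199],
 [135,186,139,206,234],
 [135,188,141,238],
 [206,203,170,154,153],
 [214,153,211,151,218,186],
 [230,169,172,227,167,177,186],
 [197,198,248,218,220,203,234],
 [198,137,195,135,186]]

/-- the masks at positions `a`, `b` -/
def inv (a b : Fin 8) : List ℕ := tab.getD (8 * a.val + b.val) []

/-- membership in the new cleared set, mask version -/
def nx (x : ℕ) (a b a' b' : Fin 8) (m : ℕ) (v : Fin 8) : Bool :=
  (a' == v || b' == v) ||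
    (m.testBit v.val && (List.finRange 8).all fun u =>
      !(tb x v u) || m.testBit u.val || (a == v && a' == u) || (b == v && b' == u))

def closed : Bool :=
  (List.finRange 8).all fun a => (List.finRange 8).all fun b => (inv a b).all fun m =>
    (List.finRange 8).all fun a' => !(a' == a || tb 3829986750009196672 a a') ||
      (List.finRange 8).all fun b' => !(b' == b || tb 3829986750009196672 b b') ||
        (inv a' b').any fun m' => (List.finRange 8).all fun v =>
          !(nx 3829986750009196672 a b a' b' m v) || m'.testBit v.val

theorem closed_true : closed = true := by decide +kernel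

def starts : Bool :=
  (List.finRange 8).all fun a => (List.finRange 8).all fun b =>
    (inv a b).any fun m => m.testBit a.val && m.testBit b.val

theorem starts_true : starts = true := by decide +kernel

def notFull : Bool :=
  (List.finRange 8).all fun a => (List.finRange 8).all fun b =>
    (inv a b).all fun m => (List.finRange 8).any fun v => !(m.testBit v.val)

theorem notFull_true : notFull = true := by decide +kernel

theorem reach_inv {p : Fin 2 → Fin 8} {C : Set (Fin 8)} (h : Reach H 2 p C) :
    ∃ m ∈ inv (p 0) (p 1), ∀ v ∈ C, m.testBit v.val = true := by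
  induction h with
  | start p =>
    have h := starts_true
    simp only [starts, List.all_eq_true, List.mem_finRange, forall_true_left,
      List.any_eq_true, Bool.and_eq_true] at h
    obtain ⟨m, hm, h0, h1⟩ := h (p 0) (p 1)
    refine ⟨m, hm, ?_⟩
    rintro v ⟨i, rfl⟩
    fin_cases i
    · exact h0
    · exact h1
  | @step p C q _ hmv ih =>
    obtain ⟨m, hm, hC⟩ := ih
    have h := closed_true
    simp only [closed, List.all_eq_true, List.mem_finRange, forall_true_left,
      List.any_eq_true, Bool.or_eq_true, Bool.not_eq_true', Bool.or_eq_false_iff,
      beq_eq_false_iff_ne] at h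
    have h1 := h (p 0) (p 1) m hm (q 0)
    have h2 : ∀ x : Fin 8, _ := h1.resolve_left (by
      rintro ⟨ha, hb⟩
      rcases hmv 0 with e | e
      · exact ha e
      · have e' : tb 3829986750009196672 (p 0) (q 0) = true := e
        rw [hb] at e'; exact Bool.noConfusion e')
    have h3 := (h2 (q 1)).resolve_left (by
      rintro ⟨ha, hb⟩
      rcases hmv 1 with e | e
      · exact ha e
      · have e' : tb 3829986750009196672 (p 1) (q 1) = true := e
        rw [hb] at e'; exact Bool.noConfusion e')
    obtain ⟨m', hm', h4⟩ := h3
    refine ⟨m', hm', ?_⟩
    intro v hv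
    rcases h4 v with h5 | h5
    · exfalso
      have : nx 3829986750009196672 (p 0) (p 1) (q 0) (q 1) m v = true := by
        simp only [nx, Bool.or_eq_true, Bool.and_eq_true, beq_iff_eq, List.all_eq_true,
          List.mem_finRange, forall_true_left, Bool.not_eq_true']
        rcases hv with ⟨i, hi⟩ | ⟨hvC, hv2⟩
        · left
          fin_cases i
          · left; exact hi
          · right; exact hi
        · right
          refine ⟨hC v hvC, ?_⟩
          intro u
          by_cases hadj : H.Adj v u
          · by_cases huC : u ∈ C
            · left; left; right; exact hC u huC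
            · obtain ⟨i, hi1, hi2⟩ := hv2 u hadj huC
              fin_cases i
              · left; right; exact ⟨hi1, hi2⟩
              · right; exact ⟨hi1, hi2⟩
          · left; left; left
            have : ¬ (tb 3829986750009196672 v u = true) := hadj
            simpa using this
      rw [h5] at this
      exact Bool.noConfusion this
    · exact h5

theorem not_clear_H : ¬ CanClear H 2 := by
  rintro ⟨p, hp⟩
  obtain ⟨m, hm, h⟩ := reach_inv hp
  have hn := notFull_true
  simp only [notFull, List.all_eq_true, List.mem_finRange, forall_true_left,
    List.any_eq_true, Bool.not_eq_true', true_and] at hn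
  obtain ⟨v, hv⟩ := hn (p 0) (p 1) m hm
  rw [h v (Set.mem_univ v)] at hv
  exact Bool.noConfusion hv

/-- superset version of reachability, convenient for running the explicit strategy -/
theorem step_mask {p q : Fin 2 → Fin 8} {m m' : ℕ}
    (hr : Reach G 2 p {v | m.testBit v.val = true})
    (hmv : ∀ i, q i = p i ∨ G.Adj (p i) (q i))
    (hm : ∀ v : Fin 8, m'.testBit v.val = nx 8477701565455548544 (p 0) (p 1) (q 0) (q 1) m v) :
    Reach G 2 q {v | m'.testBit v.val = true} := by
  have h := Reach.step q hr hmv
  have e : nextCleared G p q {v | m.testBit v.val = true} = {v | m'.testBit v.val = true} := by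
    ext v
    simp only [nextCleared, Set.mem_ofPred_eq, hm v, nx, Bool.or_eq_true, Bool.and_eq_true,
      beq_iff_eq, List.all_eq_true, List.mem_finRange, forall_true_left, Bool.not_eq_true']
    constructor
    · rintro (⟨i, hi⟩ | ⟨h1, h2⟩)
      · left
        fin_cases i
        · left; exact hi
        · right; exact hi
      · right
        refine ⟨h1, fun u => ?_⟩
        by_cases hadj : G.Adj v u
        · by_cases hu : m.testBit u.val = true
          · left; left; right; exact hu
          · obtain ⟨i, hi1, hi2⟩ := h2 u hadj hu
            fin_cases i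
            · left; right; exact ⟨hi1, hi2⟩
            · right; exact ⟨hi1, hi2⟩
        · left; left; left
          have : ¬ (tb 8477701565455548544 v u = true) := hadj
          simpa using this
    · rintro (h1 | ⟨h1, h2⟩)
      · left
        rcases h1 with h1 | h1
        · exact ⟨0, h1⟩
        · exact ⟨1, h1⟩
      · right
        refine ⟨h1, fun u hadj hu => ?_⟩
        rcases h2 u with ((h3 | h3) | h3) | h3
        · have e' : tb 8477701565455548544 v u = true := hadj
          rw [h3] at e'; exact Bool.noConfusion e'
        · exact absurd h3 hu
        · exact ⟨0, h3⟩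
        · exact ⟨1, h3⟩
  rw [e] at h
  exact h

theorem clear_G : CanClear G 2 := by
  have r0 : Reach G 2 ![3, 3] {v | (8 : ℕ).testBit v.val = true} := by
    have h := Reach.start (G := G) (k := 2) ![3, 3]
    have e : Set.range (![3, 3] : Fin 2 → Fin 8) = {v | (8 : ℕ).testBit v.val = true} := by
      ext v
      simp only [Set.mem_range, Set.mem_ofPred_eq]
      revert v
      decide +kernel
    rwa [e] at h
  have r1 : Reach G 2 ![4, 5] {v | (56 : ℕ).testBit v.val = true} :=
    step_mask r0 (by decide +kernel) (by decide +kernel)
  have r2 : Reach G 2 ![7, 5] {v | (184 : ℕ).testBit v.val = true} :=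
    step_mask r1 (by decide +kernel) (by decide +kernel)
  have r3 : Reach G 2 ![7, 6] {v | (248 : ℕ).testBit v.val = true} :=
    step_mask r2 (by decide +kernel) (by decide +kernel)
  have r4 : Reach G 2 ![0, 7] {v | (185 : ℕ).testBit v.val = true} :=
    step_mask r3 (by decide +kernel) (by decide +kernel)
  have r5 : Reach G 2 ![7, 5] {v | (185 : ℕ).testBit v.val = true} :=
    step_mask r4 (by decide +kernel) (by decide +kernel)
  have r6 : Reach G 2 ![7, 6] {v | (249 : ℕ).testBit v.val = true} :=
    step_mask r5 (by decide +kernel) (by decide +kernel)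
  have r7 : Reach G 2 ![2, 6] {v | (253 : ℕ).testBit v.val = true} :=
    step_mask r6 (by decide +kernel) (by decide +kernel)
  have r8 : Reach G 2 ![2, 1] {v | (255 : ℕ).testBit v.val = true} :=
    step_mask r7 (by decide +kernel) (by decide +kernel)
  refine ⟨![2, 1], ?_⟩
  have e : ({v | (255 : ℕ).testBit v.val = true} : Set (Fin 8)) = Set.univ := by
    ext v
    simp only [Set.mem_ofPred_eq, Set.mem_univ, iff_true]
    revert v
    decide +kernel
  rwa [e] at r8

theorem H_le_G : H ≤ G := by
  intro a b
  revert a b
  decide +kernel

theorem H_conn : H.Connected := by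
  have h7 : ∀ v, H.Reachable v 7 := by
    have a1 : ∀ a b, H.Adj a b → H.Reachable a b := fun a b h => h.reachable
    have e0 : H.Adj 0 7 := by decide +kernel
    have e1 : H.Adj 1 6 := by decide +kernel
    have e2 : H.Adj 2 6 := by decide +kernel
    have e3 : H.Adj 2 7 := by decide +kernel
    have e4 : H.Adj 3 4 := by decide +kernel
    have e5 : H.Adj 4 7 := by decide +kernel
    have e6 : H.Adj 5 7 := by decide +kernel
    intro v
    fin_cases v
    · exact e0.reachable
    · exact e1.reachable.trans (e2.symm.reachable.trans e3.reachable)
    · exact e3.reachable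
    · exact e4.reachable.trans e5.reachable
    · exact e5.reachable
    · exact e6.reachable
    · exact e2.symm.reachable.trans e3.reachable
    · exact SimpleGraph.Reachable.refl _
  have : Nonempty (Fin 8) := ⟨0⟩
  exact ⟨fun a b => (h7 a).trans (h7 b).symm⟩

/-- **Disproof of subgraph monotonicity of the lion number**, already for spanning subgraphs and
two lions. -/
theorem result : ∃ (n : ℕ) (G H : SimpleGraph (Fin n)) (k : ℕ), 1 ≤ k ∧ G.Connected ∧
    H.Connected ∧ H ≤ G ∧ CanClear G k ∧ ¬ CanClear H k :=
  ⟨8, G, H, 2, by norm_num, H_conn.mono H_le_G, H_conn, H_le_G, clear_G, not_clear_H⟩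

end Pool.Agent.Results.MP_fb7c1b_co.SpanningCounterexample
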